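import Mathlib

/-!
# The counting argument for `K_{r,g}`
-/

namespace Pool.Agent.Q11.RG

theorem count {r g : ℕ} (hg : 2 ≤ g) (hrg : g < r) (P1 : Fin r → ℝ) (P2 : Fin g → ℝ)
    (A B : Fin r → Fin g → ℝ) (hP1 : ∀ i, 0 ≤ P1 i) (hP2 : ∀ j, 0 ≤ P2 j)
    (a1 : ∀ i, 0 < P1 i → ∑ j, A i j = 1 - P1 i)
    (a2 : ∀ j, 0 < P2 j → ∑ i, B i j = 1 - P2 j)
    (b : ∀ i j, 0 < P1 i → 0 < P2 j → A i j + B i j = 1)
    (c1 : ∀ j, P2 j = 0 → (∃ i, 0 < P1 i) → ∑ i, (if 0 < P1 i then A i j else 0) = 1)
    (c2 : ∀ i, P1 i = 0 → (∃ j, 0 < P2 j) → ∑ j, (if 0 < P2 j then B i j else 0) = 1)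
    (j0 : Fin g) : P2 j0 = 0 := by
  classical
  by_contra hne
  have hj0 : 0 < P2 j0 := lt_of_le_of_ne (hP2 j0) (Ne.symm hne)
  set R : Finset (Fin r) := Finset.univ.filter fun i => 0 < P1 i with hR
  set S : Finset (Fin g) := Finset.univ.filter fun j => 0 < P2 j with hS
  have hRm : ∀ i, i ∈ R ↔ 0 < P1 i := fun i => by simp [hR]
  have hSm : ∀ j, j ∈ S ↔ 0 < P2 j := fun j => by simp [hS]
  have hR0 : ∀ i, i ∉ R → P1 i = 0 := fun i h =>
    le_antisymm (not_lt.1 fun h' => h ((hRm i).2 h')) (hP1 i)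
  have hS0 : ∀ j, j ∉ S → P2 j = 0 := fun j h =>
    le_antisymm (not_lt.1 fun h' => h ((hSm j).2 h')) (hP2 j)
  have hRr : R.card ≤ r := by simpa using R.card_le_univ
  have hSg : S.card ≤ g := by simpa using S.card_le_univ
  have hS1 : 1 ≤ S.card := Finset.card_pos.2 ⟨j0, (hSm j0).2 hj0⟩
  -- the total
  have e1 : ∑ i, ∑ j, (if i ∈ R then A i j else 0) + ∑ i, ∑ j, (if j ∈ S then B i j else 0)
      = ∑ i, ∑ j, ((if i ∈ R ∧ j ∈ S then (1 : ℝ) else 0)
        + (if j ∉ S then (if i ∈ R then A i j else 0) else 0)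
        + (if i ∉ R then (if j ∈ S then B i j else 0) else 0)) := by
    rw [← Finset.sum_add_distrib]
    refine Finset.sum_congr rfl fun i _ => ?_
    rw [← Finset.sum_add_distrib]
    refine Finset.sum_congr rfl fun j _ => ?_
    by_cases hi : i ∈ R <;> by_cases hj : j ∈ S
    · simp [hi, hj, b i j ((hRm i).1 hi) ((hSm j).1 hj)]
    · simp [hi, hj]
    · simp [hi, hj]
    · simp [hi, hj]
  have e2 : ∑ i, ∑ j, (if i ∈ R then A i j else 0) ≤ R.card := by
    have : ∀ i, ∑ j, (if i ∈ R then A i j else 0) ≤ if i ∈ R then (1 : ℝ) else 0 := by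
      intro i
      by_cases hi : i ∈ R
      · simp only [hi, if_true]
        rw [a1 i ((hRm i).1 hi)]
        linarith [hP1 i]
      · simp [hi]
    calc ∑ i, ∑ j, (if i ∈ R then A i j else 0) ≤ ∑ i, (if i ∈ R then (1 : ℝ) else 0) :=
          Finset.sum_le_sum fun i _ => this i
      _ = R.card := by rw [Finset.sum_ite_mem, Finset.univ_inter, Finset.sum_const, nsmul_eq_mul,
          mul_one]
  have e3 : ∑ i, ∑ j, (if j ∈ S then B i j else 0) < S.card := by
    rw [Finset.sum_comm]
    have h1 : ∀ j, ∑ i, (if j ∈ S then B i j else 0) ≤ if j ∈ S then (1 : ℝ) else 0 := by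
      intro j
      by_cases hj : j ∈ S
      · simp only [hj, if_true]
        rw [a2 j ((hSm j).1 hj)]
        linarith [hP2 j]
      · simp [hj]
    have h2 : ∑ i, (if j0 ∈ S then B i j0 else 0) < if j0 ∈ S then (1 : ℝ) else 0 := by
      have hj : j0 ∈ S := (hSm j0).2 hj0
      simp only [hj, if_true]
      rw [a2 j0 hj0]
      linarith
    calc ∑ j, ∑ i, (if j ∈ S then B i j else 0) < ∑ j, (if j ∈ S then (1 : ℝ) else 0) :=
          Finset.sum_lt_sum (fun j _ => h1 j) ⟨j0, Finset.mem_univ _, h2⟩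
      _ = S.card := by rw [Finset.sum_ite_mem, Finset.univ_inter, Finset.sum_const, nsmul_eq_mul,
          mul_one]
  -- evaluation of the right-hand side
  have e4 : ∑ i, ∑ j, (if i ∈ R ∧ j ∈ S then (1 : ℝ) else 0) = R.card * S.card := by
    have : ∀ i, ∑ j, (if i ∈ R ∧ j ∈ S then (1 : ℝ) else 0)
        = if i ∈ R then (S.card : ℝ) else 0 := by
      intro i
      by_cases hi : i ∈ R
      · simp [hi]
      · simp [hi]
    rw [Finset.sum_congr rfl fun i _ => this i, Finset.sum_ite_mem, Finset.univ_inter,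
      Finset.sum_const, nsmul_eq_mul]
  have e5 : ∑ i, ∑ j, (if i ∉ R then (if j ∈ S then B i j else 0) else 0) = r - R.card := by
    have : ∀ i, ∑ j, (if i ∉ R then (if j ∈ S then B i j else 0) else 0)
        = 1 - (if i ∈ R then (1 : ℝ) else 0) := by
      intro i
      by_cases hi : i ∈ R
      · simp [hi]
      · have h1 := c2 i (hR0 i hi) ⟨j0, hj0⟩
        simp only [hi, not_false_eq_true, if_true, if_false, sub_zero]
        rw [← h1]
        exact Finset.sum_congr rfl fun j _ => by simp only [hSm]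
    rw [Finset.sum_congr rfl fun i _ => this i, Finset.sum_sub_distrib, Finset.sum_ite_mem,
      Finset.univ_inter, Finset.sum_const, Finset.sum_const, nsmul_eq_mul, nsmul_eq_mul]
    simp
  have e6 : ∑ i, ∑ j, (if j ∉ S then (if i ∈ R then A i j else 0) else 0)
      = if R.Nonempty then (g : ℝ) - S.card else 0 := by
    rw [Finset.sum_comm]
    by_cases hRn : R.Nonempty
    · rw [if_pos hRn]
      obtain ⟨i1, hi1⟩ := hRn
      have : ∀ j, ∑ i, (if j ∉ S then (if i ∈ R then A i j else 0) else 0)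
          = 1 - (if j ∈ S then (1 : ℝ) else 0) := by
        intro j
        by_cases hj : j ∈ S
        · simp [hj]
        · have h1 := c1 j (hS0 j hj) ⟨i1, (hRm i1).1 hi1⟩
          simp only [hj, not_false_eq_true, if_true, if_false, sub_zero]
          rw [← h1]
          exact Finset.sum_congr rfl fun i _ => by simp only [hRm]
      rw [Finset.sum_congr rfl fun i _ => this i, Finset.sum_sub_distrib, Finset.sum_ite_mem,
        Finset.univ_inter, Finset.sum_const, Finset.sum_const, nsmul_eq_mul, nsmul_eq_mul]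
      simp
    · rw [if_neg hRn]
      rw [Finset.not_nonempty_iff_eq_empty] at hRn
      refine Finset.sum_eq_zero fun j _ => Finset.sum_eq_zero fun i _ => ?_
      simp [hRn]
  have e7 : (R.card * S.card : ℝ) + (if R.Nonempty then (g : ℝ) - S.card else 0) + (r - R.card)
      < R.card + S.card := by
    have h1 : ∑ i, ∑ j, ((if i ∈ R ∧ j ∈ S then (1 : ℝ) else 0)
        + (if j ∉ S then (if i ∈ R then A i j else 0) else 0)
        + (if i ∉ R then (if j ∈ S then B i j else 0) else 0))
        = R.card * S.card + (if R.Nonempty then (g : ℝ) - S.card else 0) + (r - R.card) := by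
      rw [← e4, ← e5, ← e6, ← Finset.sum_add_distrib, ← Finset.sum_add_distrib]
      refine Finset.sum_congr rfl fun i _ => ?_
      rw [← Finset.sum_add_distrib, ← Finset.sum_add_distrib]
    rw [← h1, ← e1]
    linarith
  have hRr' : (R.card : ℝ) ≤ r := by exact_mod_cast hRr
  have hSg' : (S.card : ℝ) ≤ g := by exact_mod_cast hSg
  have hg' : (2 : ℝ) ≤ g := by exact_mod_cast hg
  have hrg' : (g : ℝ) + 1 ≤ r := by exact_mod_cast hrg
  have hS1' : (1 : ℝ) ≤ S.card := by exact_mod_cast hS1
  by_cases hRn : R.Nonempty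
  · rw [if_pos hRn] at e7
    have hR1 : 1 ≤ R.card := Finset.card_pos.2 hRn
    have hR1' : (1 : ℝ) ≤ R.card := by exact_mod_cast hR1
    rcases Nat.lt_or_ge R.card 2 with h | h
    · have h1 : R.card = 1 := by omega
      rw [h1] at e7
      push_cast at e7
      linarith
    · rcases Nat.lt_or_ge S.card 2 with h' | h'
      · have h1 : S.card = 1 := by omega
        rw [h1] at e7
        push_cast at e7
        linarith
      · have h1 : (2 : ℝ) ≤ R.card := by exact_mod_cast h
        have h2 : (2 : ℝ) ≤ S.card := by exact_mod_cast h'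
        nlinarith
  · rw [if_neg hRn] at e7
    rw [Finset.not_nonempty_iff_eq_empty] at hRn
    rw [hRn] at e7
    simp only [Finset.card_empty, Nat.cast_zero, zero_mul, zero_add, add_zero, sub_zero] at e7
    linarith

end Pool.Agent.Q11.RG
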