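import Mathlib

/-!
# Deck transformations of a covering tree
-/

namespace Pool.Agent.Q11.RG

open SimpleGraph

variable {V C : Type*} {T : SimpleGraph V} {G : SimpleGraph C} {Ξ : V → C}

/-- `Ξ` is a covering of graphs. -/
def IsCover (T : SimpleGraph V) (G : SimpleGraph C) (Ξ : V → C) : Prop :=
  ∀ x, Set.BijOn Ξ (T.neighborSet x) (G.neighborSet (Ξ x))

theorem exists_nbr (h : IsCover T G Ξ) {x : V} {c : C} (hc : G.Adj (Ξ x) c) :
    ∃ y, T.Adj x y ∧ Ξ y = c := by
  obtain ⟨y, hy, hyc⟩ := (h x).surjOn hc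
  exact ⟨y, hy, hyc⟩

theorem nbr_unique (h : IsCover T G Ξ) {x y y' : V} (hy : T.Adj x y) (hy' : T.Adj x y')
    (he : Ξ y = Ξ y') : y = y' :=
  (h x).injOn hy hy' he

theorem adj_map (h : IsCover T G Ξ) {x y : V} (hy : T.Adj x y) : G.Adj (Ξ x) (Ξ y) :=
  (h x).mapsTo hy

open Classical in
/-- The neighbour of `x` over `c` (or `x` if there is none). -/
noncomputable def nbr (T : SimpleGraph V) (Ξ : V → C) (x : V) (c : C) : V :=
  if h : ∃ y, T.Adj x y ∧ Ξ y = c then h.choose else x

theorem nbr_spec (h : IsCover T G Ξ) {x : V} {c : C} (hc : G.Adj (Ξ x) c) :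
    T.Adj x (nbr T Ξ x c) ∧ Ξ (nbr T Ξ x c) = c := by
  have h' := exists_nbr h hc
  rw [nbr, dif_pos h']
  exact h'.choose_spec

theorem nbr_eq (h : IsCover T G Ξ) {x y : V} (hy : T.Adj x y) : nbr T Ξ x (Ξ y) = y := by
  have h1 := nbr_spec h (adj_map h hy)
  exact nbr_unique h h1.1 hy h1.2

/-- Follow the image of a walk from another starting vertex. -/
noncomputable def follow (Ξ : V → C) : ∀ {a b : V}, T.Walk a b → V → V
  | _, _, .nil, a' => a'
  | _, _, @Walk.cons _ _ _ v _ _ p, a' => follow Ξ p (nbr T Ξ a' (Ξ v))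

theorem follow_map (h : IsCover T G Ξ) {a b : V} (p : T.Walk a b) :
    ∀ a', Ξ a' = Ξ a → Ξ (follow Ξ p a') = Ξ b := by
  induction p with
  | nil => intro a' ha; exact ha
  | @cons u v w hadj p ih =>
    intro a' ha
    rw [follow]
    apply ih
    exact (nbr_spec h (by rw [ha]; exact adj_map h hadj)).2

theorem follow_concat {a b c : V} (p : T.Walk a b) (hbc : T.Adj b c) :
    ∀ a', follow Ξ (p.concat hbc) a' = nbr T Ξ (follow Ξ p a') (Ξ c) := by
  induction p with
  | nil => intro a'; rfl
  | @cons u v w hadj p ih =>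
    intro a'
    rw [Walk.concat_cons, follow, follow]
    exact ih hbc _

/-- The path in the tree. -/
noncomputable def treePath (hT : T.IsTree) (a b : V) : T.Walk a b :=
  (hT.existsUnique_path a b).choose

theorem treePath_isPath (hT : T.IsTree) (a b : V) : (treePath hT a b).IsPath :=
  (hT.existsUnique_path a b).choose_spec.1

theorem treePath_unique (hT : T.IsTree) {a b : V} (p : T.Walk a b) (hp : p.IsPath) :
    treePath hT a b = p :=
  ((hT.existsUnique_path a b).unique (treePath_isPath hT a b) hp)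

/-- The map of a tree over the base sending `a` to `a'`. -/
noncomputable def deckMap (hT : T.IsTree) (Ξ : V → C) (a a' : V) (y : V) : V :=
  follow Ξ (treePath hT a y) a'

theorem deckMap_base (hT : T.IsTree) (a a' : V) : deckMap hT Ξ a a' a = a' := by
  rw [deckMap, treePath_unique hT Walk.nil Walk.IsPath.nil]
  rfl

theorem deckMap_over (h : IsCover T G Ξ) (hT : T.IsTree) {a a' : V} (he : Ξ a' = Ξ a) (y : V) :
    Ξ (deckMap hT Ξ a a' y) = Ξ y :=
  follow_map h _ _ he

theorem path_step (hT : T.IsTree) (a : V) {y z : V} (hyz : T.Adj y z) :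
    treePath hT a z = (treePath hT a y).concat hyz ∨
      treePath hT a y = (treePath hT a z).concat hyz.symm := by
  classical
  by_cases hz : z ∈ (treePath hT a y).support
  · right
    set p := treePath hT a y with hp
    have hpp : p.IsPath := treePath_isPath hT a y
    set q := p.takeUntil z hz with hq
    have hqp : q.IsPath := hpp.takeUntil hz
    have hy : y ∉ q.support := Walk.endpoint_notMem_support_takeUntil hpp hz hyz.ne
    rw [treePath_unique hT q hqp]
    exact treePath_unique hT (q.concat hyz.symm) (hqp.concat hy hyz.symm)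
  · left
    exact treePath_unique hT _ ((treePath_isPath hT a y).concat hz hyz)

theorem deckMap_adj (h : IsCover T G Ξ) (hT : T.IsTree) {a a' : V} (he : Ξ a' = Ξ a)
    {y z : V} (hyz : T.Adj y z) : T.Adj (deckMap hT Ξ a a' y) (deckMap hT Ξ a a' z) := by
  rcases path_step hT a hyz with h1 | h1
  · have h2 : deckMap hT Ξ a a' z = nbr T Ξ (deckMap hT Ξ a a' y) (Ξ z) := by
      rw [deckMap, h1, follow_concat]; rfl
    rw [h2]
    refine (nbr_spec h ?_).1
    rw [deckMap_over h hT he]
    exact adj_map h hyz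
  · have h2 : deckMap hT Ξ a a' y = nbr T Ξ (deckMap hT Ξ a a' z) (Ξ y) := by
      rw [deckMap, h1, follow_concat]; rfl
    rw [h2]
    refine T.adj_symm (nbr_spec h ?_).1
    rw [deckMap_over h hT he]
    exact adj_map h hyz.symm

/-- A self-map of the tree over the base with a fixed point is the identity. -/
theorem over_fixed (h : IsCover T G Ξ) (hT : T.IsTree) (f : V → V) (hf : ∀ y, Ξ (f y) = Ξ y)
    (hadj : ∀ y z, T.Adj y z → T.Adj (f y) (f z)) {a : V} (ha : f a = a) (y : V) : f y = y := by
  obtain ⟨p⟩ := hT.connected.preconnected a y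
  have key : ∀ {u v : V} (p : T.Walk u v), f u = u → f v = v := by
    intro u v p
    induction p with
    | nil => exact id
    | @cons u v w huv p ih =>
      intro hu
      apply ih
      have h1 := hadj _ _ huv
      rw [hu] at h1
      exact nbr_unique h h1 huv (hf v)
  exact key p ha

/-- **Deck transformations** act transitively on fibres. -/
theorem exists_deck (h : IsCover T G Ξ) (hT : T.IsTree) {a a' : V} (he : Ξ a' = Ξ a) :
    ∃ τ : V ≃ V, τ a = a' ∧ (∀ y, Ξ (τ y) = Ξ y) ∧ ∀ y z, T.Adj (τ y) (τ z) ↔ T.Adj y z := by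
  have h1 : ∀ y, deckMap hT Ξ a' a (deckMap hT Ξ a a' y) = y := by
    intro y
    refine over_fixed h hT (fun y => deckMap hT Ξ a' a (deckMap hT Ξ a a' y)) ?_ ?_ (a := a) ?_ y
    · intro y
      show Ξ (deckMap hT Ξ a' a (deckMap hT Ξ a a' y)) = Ξ y
      rw [deckMap_over h hT he.symm, deckMap_over h hT he]
    · intro y z hyz
      exact deckMap_adj h hT he.symm (deckMap_adj h hT he hyz)
    · show deckMap hT Ξ a' a (deckMap hT Ξ a a' a) = a
      rw [deckMap_base, deckMap_base]
  have h2 : ∀ y, deckMap hT Ξ a a' (deckMap hT Ξ a' a y) = y := by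
    intro y
    refine over_fixed h hT (fun y => deckMap hT Ξ a a' (deckMap hT Ξ a' a y)) ?_ ?_ (a := a') ?_ y
    · intro y
      show Ξ (deckMap hT Ξ a a' (deckMap hT Ξ a' a y)) = Ξ y
      rw [deckMap_over h hT he, deckMap_over h hT he.symm]
    · intro y z hyz
      exact deckMap_adj h hT he (deckMap_adj h hT he.symm hyz)
    · show deckMap hT Ξ a a' (deckMap hT Ξ a' a a') = a'
      rw [deckMap_base, deckMap_base]
  refine ⟨⟨deckMap hT Ξ a a', deckMap hT Ξ a' a, h1, h2⟩, deckMap_base hT a a',
    deckMap_over h hT he, ?_⟩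
  intro y z
  constructor
  · intro hyz
    have h3 := deckMap_adj h hT he.symm hyz
    rw [Equiv.coe_fn_mk, h1, h1] at h3
    exact h3
  · exact deckMap_adj h hT he

end Pool.Agent.Q11.RG
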