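import Pool.Agent.Q11.RG.Tree

/-!
# Square-summable eigenfunctions of a weighted tree
-/

namespace Pool.Agent.Q11.RG

open SimpleGraph

variable {V : Type*} {T : SimpleGraph V} [T.LocallyFinite]

/-- `L v z = ∑_{w ~ z} W z w v w - q z v z`. -/
noncomputable def Lop (T : SimpleGraph V) [T.LocallyFinite] (W : V → V → ℝ) (q : V → ℝ)
    (v : V → ℝ) (z : V) : ℝ :=
  ∑ w ∈ T.neighborFinset z, W z w * v w - q z * v z

/-- Square-summable solutions. -/
def IsEig (T : SimpleGraph V) [T.LocallyFinite] (W : V → V → ℝ) (q : V → ℝ)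
    (u : V → ℝ) : Prop :=
  Summable (fun z => u z ^ 2) ∧ ∀ z, Lop T W q u z = 0

theorem summable_mul_sq {u w : V → ℝ} (hu : Summable fun z => u z ^ 2)
    (hw : Summable fun z => w z ^ 2) : Summable fun z => u z * w z := by
  refine Summable.of_norm_bounded (g := fun z => u z ^ 2 + w z ^ 2) (hu.add hw) ?_
  intro z
  rw [Real.norm_eq_abs, abs_le]
  constructor <;> nlinarith [sq_nonneg (u z + w z), sq_nonneg (u z - w z), sq_nonneg (u z),
    sq_nonneg (w z)]

theorem summable_lin_sq {u w : V → ℝ} (hu : Summable fun z => u z ^ 2)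
    (hw : Summable fun z => w z ^ 2) (α β : ℝ) :
    Summable fun z => (α * u z - β * w z) ^ 2 := by
  have h : (fun z => (α * u z - β * w z) ^ 2)
      = fun z => α ^ 2 * u z ^ 2 + (β ^ 2 * w z ^ 2 - 2 * α * β * (u z * w z)) := by
    funext z; ring
  rw [h]
  exact (hu.mul_left _).add ((hw.mul_left _).sub ((summable_mul_sq hu hw).mul_left _))

theorem summable_ind_sq {u : V → ℝ} (hu : Summable fun z => u z ^ 2) (S : Set V) :
    Summable fun z => (S.indicator u z) ^ 2 := by
  refine Summable.of_nonneg_of_le (fun z => sq_nonneg _) ?_ hu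
  intro z
  by_cases hz : z ∈ S
  · rw [Set.indicator_of_mem hz]
  · rw [Set.indicator_of_notMem hz]; simpa using sq_nonneg (u z)

/-- Reversal of oriented edges. -/
def swapE (T : SimpleGraph V) : ((z : V) × T.neighborSet z) ≃ ((z : V) × T.neighborSet z) where
  toFun d := ⟨d.2.1, ⟨d.1, T.adj_symm d.2.2⟩⟩
  invFun d := ⟨d.2.1, ⟨d.1, T.adj_symm d.2.2⟩⟩
  left_inv _ := rfl
  right_inv _ := rfl

theorem tsum_nbr (F : V → V → ℝ) (z : V) :
    ∑' w : T.neighborSet z, F z w = ∑ w ∈ T.neighborFinset z, F z w := by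
  rw [tsum_fintype, neighborFinset_def, ← Finset.sum_set_coe]

theorem summable_dart_fst {D : ℕ} (hD : ∀ z, T.degree z ≤ D) {A : V → ℝ} (hA0 : ∀ z, 0 ≤ A z)
    (hA : Summable A) : Summable (fun d : (z : V) × T.neighborSet z => A d.1) := by
  rw [summable_sigma_of_nonneg (fun d => hA0 d.1)]
  refine ⟨fun z => (hasSum_fintype _).summable, ?_⟩
  refine Summable.of_nonneg_of_le (fun z => tsum_nonneg fun _ => hA0 z) ?_ (hA.mul_left (D : ℝ))
  intro z
  have h := tsum_nbr (T := T) (fun z _ => A z) z
  simp only at h ⊢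
  rw [h, Finset.sum_const, card_neighborFinset_eq_degree, nsmul_eq_mul]
  exact mul_le_mul_of_nonneg_right (by exact_mod_cast hD z) (hA0 z)

theorem summable_dart_snd {D : ℕ} (hD : ∀ z, T.degree z ≤ D) {A : V → ℝ} (hA0 : ∀ z, 0 ≤ A z)
    (hA : Summable A) : Summable (fun d : (z : V) × T.neighborSet z => A d.2) := by
  have h := summable_dart_fst (T := T) hD hA0 hA
  exact (swapE T).summable_iff.2 h

theorem sum_swap (F : V → V → ℝ)
    (hF : Summable (fun d : (z : V) × T.neighborSet z => F d.1 d.2)) :
    ∑' z, ∑ w ∈ T.neighborFinset z, F z w = ∑' z, ∑ w ∈ T.neighborFinset z, F w z := by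
  have hF' : Summable (fun d : (z : V) × T.neighborSet z => F d.2 d.1) :=
    (swapE T).summable_iff.2 hF
  have h1 : ∑' z, ∑ w ∈ T.neighborFinset z, F z w
      = ∑' d : (z : V) × T.neighborSet z, F d.1 d.2 := by
    rw [hF.tsum_sigma]
    refine tsum_congr fun z => (tsum_nbr F z).symm
  have h2 : ∑' z, ∑ w ∈ T.neighborFinset z, F w z
      = ∑' d : (z : V) × T.neighborSet z, F d.2 d.1 := by
    rw [hF'.tsum_sigma]
    refine tsum_congr fun z => (tsum_nbr (fun z w => F w z) z).symm
  rw [h1, h2]
  exact ((swapE T).tsum_eq (fun d => F d.1 d.2)).symm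

theorem summable_sum_nbr (F : V → V → ℝ)
    (hF : Summable (fun d : (z : V) × T.neighborSet z => F d.1 d.2)) :
    Summable fun z => ∑ w ∈ T.neighborFinset z, F z w := by
  have h := hF.sigma
  have h2 : (fun z => ∑' w : T.neighborSet z, F z w)
      = fun z => ∑ w ∈ T.neighborFinset z, F z w := funext fun z => tsum_nbr F z
  rw [← h2]; exact h

/-- The standing assumptions on the weights. -/
structure Wt (T : SimpleGraph V) [T.LocallyFinite] (W : V → V → ℝ) (M : ℝ) (D : ℕ) : Prop where
  symm : ∀ x y, W x y = W y x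
  pos : ∀ x y, T.Adj x y → 0 < W x y
  bdd : ∀ x y, |W x y| ≤ M
  deg : ∀ x, T.degree x ≤ D

variable {W : V → V → ℝ} {q : V → ℝ} {M : ℝ} {D : ℕ}

theorem summable_dart_prod (h : Wt T W M D) {u v : V → ℝ} (hu : Summable fun z => u z ^ 2)
    (hv : Summable fun z => v z ^ 2) :
    Summable (fun d : (z : V) × T.neighborSet z => W d.1 d.2 * v d.2 * u d.1) := by
  have h1 := summable_dart_fst (T := T) h.deg (fun z => sq_nonneg (u z)) hu
  have h2 := summable_dart_snd (T := T) h.deg (fun z => sq_nonneg (v z)) hv
  refine Summable.of_norm_bounded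
    (g := fun d : (z : V) × T.neighborSet z => M * (u d.1 ^ 2 + v d.2 ^ 2))
    ((h1.add h2).mul_left M) ?_
  intro d
  rw [Real.norm_eq_abs, abs_mul, abs_mul, mul_assoc]
  have h3 := h.bdd d.1 d.2
  have h4 : |v d.2| * |u d.1| ≤ u d.1 ^ 2 + v d.2 ^ 2 := by
    rw [← sq_abs (u d.1), ← sq_abs (v d.2)]
    nlinarith [sq_nonneg (|u d.1| - |v d.2|), sq_nonneg (|u d.1|), sq_nonneg (|v d.2|)]
  have h5 : 0 ≤ |v d.2| * |u d.1| := mul_nonneg (abs_nonneg _) (abs_nonneg _)
  have h6 : 0 ≤ M := (abs_nonneg _).trans h3
  calc |W d.1 d.2| * (|v d.2| * |u d.1|) ≤ M * (|v d.2| * |u d.1|) :=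
        mul_le_mul_of_nonneg_right h3 h5
    _ ≤ _ := mul_le_mul_of_nonneg_left h4 h6

theorem summable_Hmul (h : Wt T W M D) {u v : V → ℝ} (hu : Summable fun z => u z ^ 2)
    (hv : Summable fun z => v z ^ 2) :
    Summable fun z => (∑ w ∈ T.neighborFinset z, W z w * v w) * u z := by
  have h1 := summable_sum_nbr (T := T) (fun z w => W z w * v w * u z)
    (summable_dart_prod h hu hv)
  have h2 : (fun z => ∑ w ∈ T.neighborFinset z, W z w * v w * u z)
      = fun z => (∑ w ∈ T.neighborFinset z, W z w * v w) * u z := by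
    funext z; rw [Finset.sum_mul]
  rw [← h2]; exact h1

theorem symm_sum (h : Wt T W M D) {u v : V → ℝ} (hu : Summable fun z => u z ^ 2)
    (hv : Summable fun z => v z ^ 2) :
    ∑' z, (∑ w ∈ T.neighborFinset z, W z w * v w) * u z
      = ∑' z, (∑ w ∈ T.neighborFinset z, W z w * u w) * v z := by
  have h1 := sum_swap (T := T) (fun z w => W z w * v w * u z) (summable_dart_prod h hu hv)
  have h2 : ∀ z, (∑ w ∈ T.neighborFinset z, W z w * v w) * u z
      = ∑ w ∈ T.neighborFinset z, W z w * v w * u z := fun z => Finset.sum_mul _ _ _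
  have h3 : ∀ z, (∑ w ∈ T.neighborFinset z, W z w * u w) * v z
      = ∑ w ∈ T.neighborFinset z, W w z * v z * u w := by
    intro z
    rw [Finset.sum_mul]
    refine Finset.sum_congr rfl fun w _ => ?_
    rw [h.symm w z]; ring
  rw [tsum_congr h2, tsum_congr h3]
  exact h1

/-- Eigenfunctions are orthogonal to the range of `L`. -/
theorem pair_zero (h : Wt T W M D) {u v : V → ℝ} (hu : IsEig T W q u)
    (hv : Summable fun z => v z ^ 2) : ∑' z, Lop T W q v z * u z = 0 := by
  have h1 := symm_sum h hu.1 hv
  have h2 : ∀ z, (∑ w ∈ T.neighborFinset z, W z w * u w) * v z = q z * v z * u z := by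
    intro z
    have h3 := hu.2 z
    rw [Lop, sub_eq_zero] at h3
    rw [h3]; ring
  have h4 : Summable fun z => q z * v z * u z := by
    have h5 := summable_Hmul h hv hu.1
    simp_rw [h2] at h5
    exact h5
  have h6 : ∀ z, Lop T W q v z * u z
      = (∑ w ∈ T.neighborFinset z, W z w * v w) * u z - q z * v z * u z := by
    intro z; rw [Lop]; ring
  rw [tsum_congr h6, (summable_Hmul h hu.1 hv).tsum_sub h4, h1, tsum_congr h2, sub_self]

theorem Lop_lin (u v : V → ℝ) (α β : ℝ) (z : V) :
    Lop T W q (fun z => α * u z - β * v z) z = α * Lop T W q u z - β * Lop T W q v z := by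
  rw [Lop, Lop, Lop]
  have h : ∀ w, W z w * (α * u w - β * v w) = α * (W z w * u w) - β * (W z w * v w) := by
    intro w; ring
  rw [Finset.sum_congr rfl fun w _ => h w, Finset.sum_sub_distrib, ← Finset.mul_sum,
    ← Finset.mul_sum]
  ring

open Classical in
/-- Cutting an eigenfunction at an edge. -/
theorem Lop_cut (hT : T.IsTree) {x y : V} (hxy : T.Adj x y) {u : V → ℝ}
    (hu : ∀ z, Lop T W q u z = 0) (z : V) :
    Lop T W q ((Br T x y).indicator u) z
      = (if z = x then -(W x y * u y) else 0) + (if z = y then W y x * u x else 0) := by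
  have hx : x ∈ Br T x y := mem_Br_self _ _
  have hy : y ∉ Br T x y := not_mem_Br hT.isAcyclic hxy
  have h0 := hu z
  rw [Lop] at h0 ⊢
  by_cases hzx : z = x
  · subst hzx
    rw [if_pos rfl, if_neg hxy.ne, add_zero, Set.indicator_of_mem hx]
    have h1 : ∀ w ∈ T.neighborFinset z, W z w * (Br T z y).indicator u w
        = W z w * u w - (if w = y then W z y * u y else 0) := by
      intro w hw
      rw [mem_neighborFinset] at hw
      by_cases hwy : w = y
      · subst hwy
        rw [Set.indicator_of_notMem hy, if_pos rfl]; ring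
      · have h2 : w ∈ Br T z y := by
          refine (mem_Br_iff_of_adj hw ?_).1 hx
          intro he
          rw [Sym2.eq_iff] at he
          rcases he with ⟨_, h3⟩ | ⟨h3, _⟩
          · exact hwy h3
          · exact hxy.ne h3
        rw [Set.indicator_of_mem h2, if_neg hwy, sub_zero]
    rw [Finset.sum_congr rfl h1, Finset.sum_sub_distrib, Finset.sum_ite_eq',
      if_pos ((mem_neighborFinset _ _ _).2 hxy)]
    linarith
  · by_cases hzy : z = y
    · subst hzy
      rw [if_neg hzx, if_pos rfl, zero_add, Set.indicator_of_notMem hy, mul_zero, sub_zero]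
      have h1 : ∀ w ∈ T.neighborFinset z, W z w * (Br T x z).indicator u w
          = (if w = x then W z x * u x else 0) := by
        intro w hw
        rw [mem_neighborFinset] at hw
        by_cases hwx : w = x
        · subst hwx
          rw [Set.indicator_of_mem hx, if_pos rfl]
        · have h2 : w ∉ Br T x z := by
            intro hw'
            refine hy ((mem_Br_iff_of_adj hw ?_).2 hw')
            intro he
            rw [Sym2.eq_iff] at he
            rcases he with ⟨h3, _⟩ | ⟨_, h3⟩
            · exact hxy.ne h3.symm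
            · exact hwx h3
          rw [Set.indicator_of_notMem h2, if_neg hwx, mul_zero]
      rw [Finset.sum_congr rfl h1, Finset.sum_ite_eq',
        if_pos ((mem_neighborFinset _ _ _).2 hxy.symm)]
    · rw [if_neg hzx, if_neg hzy, add_zero]
      have hne : ∀ w, s(z, w) ≠ s(x, y) := by
        intro w he
        rw [Sym2.eq_iff] at he
        rcases he with ⟨h3, _⟩ | ⟨h3, _⟩
        · exact hzx h3
        · exact hzy h3
      by_cases hz : z ∈ Br T x y
      · have h1 : ∀ w ∈ T.neighborFinset z, W z w * (Br T x y).indicator u w = W z w * u w := by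
          intro w hw
          rw [mem_neighborFinset] at hw
          rw [Set.indicator_of_mem ((mem_Br_iff_of_adj hw (hne w)).1 hz)]
        rw [Finset.sum_congr rfl h1, Set.indicator_of_mem hz]
        exact h0
      · have h1 : ∀ w ∈ T.neighborFinset z, W z w * (Br T x y).indicator u w = 0 := by
          intro w hw
          rw [mem_neighborFinset] at hw
          rw [Set.indicator_of_notMem (fun hw' => hz ((mem_Br_iff_of_adj hw (hne w)).2 hw')),
            mul_zero]
        rw [Finset.sum_congr rfl h1, Set.indicator_of_notMem hz, Finset.sum_const_zero]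
        ring

/-- The Wronskian of two eigenfunctions vanishes on every edge. -/
theorem wronskian (hT : T.IsTree) (h : Wt T W M D) {x y : V} (hxy : T.Adj x y) {u w : V → ℝ}
    (hu : IsEig T W q u) (hw : IsEig T W q w) : u x * w y = u y * w x := by
  classical
  have h1 := pair_zero h hu (summable_ind_sq hw.1 (Br T x y))
  have h2 : ∀ z, Lop T W q ((Br T x y).indicator w) z * u z
      = (if z = x then -(W x y * w y) * u x else 0) + (if z = y then W y x * w x * u y else 0) := by
    intro z
    rw [Lop_cut hT hxy hw.2 z]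
    by_cases hzx : z = x
    · subst hzx; simp [hxy.ne]
    · by_cases hzy : z = y
      · subst hzy; simp [hzx]
      · simp [hzx, hzy]
  rw [tsum_congr h2] at h1
  have hs1 : Summable fun z => (if z = x then -(W x y * w y) * u x else 0) :=
    (hasSum_ite_eq x _).summable
  have hs2 : Summable fun z => (if z = y then W y x * w x * u y else 0) :=
    (hasSum_ite_eq y _).summable
  rw [hs1.tsum_add hs2, tsum_ite_eq, tsum_ite_eq, h.symm y x] at h1
  have hW := h.pos x y hxy
  have h3 : W x y * (u y * w x - u x * w y) = 0 := by linarith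
  rcases mul_eq_zero.1 h3 with h4 | h4
  · exact absurd h4 hW.ne'
  · linarith

/-- The difference of two cut eigenfunctions is an eigenfunction. -/
theorem isEig_diff (hT : T.IsTree) (h : Wt T W M D) {x y : V} (hxy : T.Adj x y) {u w : V → ℝ}
    (hu : IsEig T W q u) (hw : IsEig T W q w) :
    IsEig T W q (fun z => w x * (Br T x y).indicator u z - u x * (Br T x y).indicator w z) := by
  classical
  refine ⟨summable_lin_sq (summable_ind_sq hu.1 _) (summable_ind_sq hw.1 _) _ _, ?_⟩
  intro z
  rw [Lop_lin, Lop_cut hT hxy hu.2 z, Lop_cut hT hxy hw.2 z]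
  have h3 := wronskian hT h hxy hu hw
  by_cases hzx : z = x
  · subst hzx
    simp only [if_true, hxy.ne, if_false, add_zero]
    linear_combination (W z y) * h3
  · by_cases hzy : z = y
    · subst hzy
      simp only [hzx, if_false, if_true, zero_add]
      ring
    · simp [hzx, hzy]

/-- Gluing two cut eigenfunctions that both vanish at `y`. -/
theorem isEig_glue (hT : T.IsTree) {x x' y : V} (hxy : T.Adj x y) (hxy' : T.Adj x' y)
    {u w : V → ℝ} (hu : IsEig T W q u) (hw : IsEig T W q w) (huy : u y = 0) (hwy : w y = 0) :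
    IsEig T W q (fun z => (W y x' * w x') * (Br T x y).indicator u z
      - (W y x * u x) * (Br T x' y).indicator w z) := by
  classical
  refine ⟨summable_lin_sq (summable_ind_sq hu.1 _) (summable_ind_sq hw.1 _) _ _, ?_⟩
  intro z
  rw [Lop_lin, Lop_cut hT hxy hu.2 z, Lop_cut hT hxy' hw.2 z, huy, hwy]
  by_cases hzy : z = y
  · subst hzy
    simp only [mul_zero, neg_zero, ite_self, if_true, zero_add]
    ring
  · simp [hzy]

open scoped InnerProductSpace in
/-- The reproducing kernel of the eigenspace. -/
theorem exists_kernel (T : SimpleGraph V) [T.LocallyFinite] (W : V → V → ℝ) (q : V → ℝ) :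
    ∃ K : V → V → ℝ, (∀ x, IsEig T W q (K x)) ∧
      ∀ x u, IsEig T W q u → ∑' z, K x z * u z = u x := by
  classical
  let E : Submodule ℝ (lp (fun _ : V => ℝ) 2) :=
    { carrier := {u | ∀ z, Lop T W q (fun z => u z) z = 0}
      zero_mem' := by
        intro z
        simp [Lop]
      add_mem' := by
        intro u v hu hv z
        have h1 := hu z
        have h2 := hv z
        rw [Lop] at h1 h2 ⊢
        have h3 : ∀ w ∈ T.neighborFinset z, W z w * (u + v : lp (fun _ : V => ℝ) 2) w
            = W z w * u w + W z w * v w := by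
          intro w _
          rw [lp.coeFn_add, Pi.add_apply]; ring
        rw [Finset.sum_congr rfl h3, Finset.sum_add_distrib, lp.coeFn_add, Pi.add_apply]
        linarith
      smul_mem' := by
        intro c u hu z
        have h1 := hu z
        rw [Lop] at h1 ⊢
        have h3 : ∀ w ∈ T.neighborFinset z, W z w * (c • u : lp (fun _ : V => ℝ) 2) w
            = c * (W z w * u w) := by
          intro w _
          rw [lp.coeFn_smul, Pi.smul_apply, smul_eq_mul]; ring
        rw [Finset.sum_congr rfl h3, ← Finset.mul_sum, lp.coeFn_smul, Pi.smul_apply, smul_eq_mul]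
        linear_combination c * h1 }
  have hcl : IsClosed (E : Set (lp (fun _ : V => ℝ) 2)) := by
    have h1 : (E : Set (lp (fun _ : V => ℝ) 2))
        = ⋂ z, {u : lp (fun _ : V => ℝ) 2 | Lop T W q (fun z => u z) z = 0} := by
      ext u
      simp only [Set.mem_iInter]
      rfl
    rw [h1]
    refine isClosed_iInter fun z => isClosed_eq ?_ continuous_const
    have hc : ∀ w, Continuous fun u : lp (fun _ : V => ℝ) 2 => u w := fun w =>
      (lp.lipschitzWith_one_eval (E := fun _ : V => ℝ) 2 w).continuous
    unfold Lop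
    exact (continuous_finsetSum _ fun w _ => continuous_const.mul (hc w)).sub
      (continuous_const.mul (hc z))
  have : CompleteSpace E := hcl.completeSpace_coe
  have hsq : ∀ u : lp (fun _ : V => ℝ) 2, Summable fun z => (u z) ^ 2 := by
    intro u
    have h := (memℓp_gen_iff (p := 2) (by norm_num)).1 u.2
    refine h.congr fun z => ?_
    simp
  refine ⟨fun x z => ((E.orthogonalProjectionOnto (lp.single 2 x (1 : ℝ)) : E) :
    lp (fun _ : V => ℝ) 2) z, ?_, ?_⟩
  · intro x
    exact ⟨hsq _, (E.orthogonalProjectionOnto (lp.single 2 x (1 : ℝ))).2⟩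
  · intro x u hu
    have hmem : Memℓp u 2 := by
      refine (memℓp_gen_iff (p := 2) (by norm_num)).2 ?_
      refine hu.1.congr fun z => ?_
      simp
    let U : lp (fun _ : V => ℝ) 2 := ⟨u, hmem⟩
    have hUE : U ∈ E := hu.2
    have h1 := Submodule.inner_orthogonalProjectionOnto_eq_of_mem_right (K := E) ⟨U, hUE⟩
      (lp.single 2 x (1 : ℝ))
    have h2 : ⟪((E.orthogonalProjectionOnto (lp.single 2 x (1 : ℝ)) : E) :
        lp (fun _ : V => ℝ) 2), U⟫_ℝ = ⟪(lp.single 2 x (1 : ℝ) : lp (fun _ : V => ℝ) 2), U⟫_ℝ := h1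
    rw [lp.inner_single_left, lp.inner_eq_tsum] at h2
    have h3 : ⟪(1 : ℝ), U x⟫_ℝ = u x := by
      simp [U]
    rw [h3] at h2
    rw [← h2]
    refine tsum_congr fun z => ?_
    rw [show U z = u z from rfl]
    simp [mul_comm]

end Pool.Agent.Q11.RG
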