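import Pool.Agent.Q11.RG.Ell2

/-!
# The local identities behind Aomoto's index theorem
-/

namespace Pool.Agent.Q11.RG

open SimpleGraph

variable {V : Type*} {T : SimpleGraph V} [T.LocallyFinite]
variable {W : V → V → ℝ} {q : V → ℝ} {M : ℝ} {D : ℕ}

/-- `K` is the reproducing kernel of the space of square-summable solutions. -/
def IsKer (T : SimpleGraph V) [T.LocallyFinite] (W : V → V → ℝ) (q : V → ℝ)
    (K : V → V → ℝ) : Prop :=
  (∀ x, IsEig T W q (K x)) ∧ ∀ x u, IsEig T W q u → ∑' z, K x z * u z = u x

variable {K : V → V → ℝ}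

theorem IsKer.symm (hK : IsKer T W q K) (x z : V) : K x z = K z x := by
  have h1 := hK.2 z (K x) (hK.1 x)
  have h2 := hK.2 x (K z) (hK.1 z)
  rw [← h1, ← h2]
  exact tsum_congr fun t => mul_comm _ _

theorem IsKer.self_nonneg (hK : IsKer T W q K) (x : V) : 0 ≤ K x x := by
  have h1 := hK.2 x (K x) (hK.1 x)
  rw [← h1]
  exact tsum_nonneg fun z => mul_self_nonneg _

theorem IsKer.eq_zero (hK : IsKer T W q K) {x : V} (hx : K x x = 0) (z : V) : K x z = 0 := by
  have h1 := hK.2 x (K x) (hK.1 x)
  rw [hx] at h1
  have hs : Summable fun z => K x z * K x z := by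
    refine (hK.1 x).1.congr fun z => ?_
    rw [sq]
  have h2 := (hs.hasSum_iff.2 h1)
  rw [hasSum_zero_iff_of_nonneg (fun z => mul_self_nonneg _)] at h2
  have h3 := congrFun h2 z
  simpa using h3

theorem IsKer.vanish (hK : IsKer T W q K) {x : V} (hx : K x x = 0) {u : V → ℝ}
    (hu : IsEig T W q u) : u x = 0 := by
  rw [← hK.2 x u hu]
  simp [hK.eq_zero hx]

/-- The fraction of the mass of `K x` beyond the neighbour `y`. -/
noncomputable def frac (T : SimpleGraph V) (K : V → V → ℝ) (x y : V) : ℝ :=
  (∑' z, (Br T y x).indicator (fun z => K x z ^ 2) z) / K x x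

theorem sum_sq (hK : IsKer T W q K) (x : V) : ∑' z, K x z ^ 2 = K x x := by
  have h1 := hK.2 x (K x) (hK.1 x)
  rw [← h1]
  exact tsum_congr fun z => sq _

/-- (a) The fractions beyond the neighbours of `x` add up to `1 - K x x`. -/
theorem frac_sum (hT : T.IsTree) (hK : IsKer T W q K) {x : V} (hx : 0 < K x x) :
    ∑ y ∈ T.neighborFinset x, frac T K x y = 1 - K x x := by
  classical
  have hs := (hK.1 x).1
  have h1 : ∑ y ∈ T.neighborFinset x, ∑' z, (Br T y x).indicator (fun z => K x z ^ 2) z
      = ∑' z, (if z = x then 0 else K x z ^ 2) := by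
    rw [← Summable.tsum_finsetSum (fun y _ => hs.indicator _)]
    refine tsum_congr fun z => ?_
    by_cases hz : z = x
    · rw [if_pos hz, hz]
      refine Finset.sum_eq_zero fun y hy => ?_
      rw [mem_neighborFinset] at hy
      exact Set.indicator_of_notMem (not_mem_Br hT.isAcyclic hy.symm) _
    · rw [if_neg hz]
      obtain ⟨y, hy, hzy⟩ := exists_branch hT hz
      rw [Finset.sum_eq_single y]
      · rw [Set.indicator_of_mem hzy]
      · intro y' hy' hne
        rw [mem_neighborFinset] at hy'
        exact Set.indicator_of_notMem (fun h => hne (branch_unique hT hy' hy h hzy)) _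
      · intro h
        exact absurd ((mem_neighborFinset _ _ _).2 hy) h
  have h2 := hs.tsum_eq_add_tsum_ite x
  rw [sum_sq hK] at h2
  have h3 : ∑ y ∈ T.neighborFinset x, frac T K x y
      = (∑ y ∈ T.neighborFinset x, ∑' z, (Br T y x).indicator (fun z => K x z ^ 2) z) / K x x := by
    rw [Finset.sum_div]; rfl
  rw [h3, h1]
  field_simp
  linarith

omit [T.LocallyFinite] in
theorem split_sum (hT : T.IsTree) {x y : V} (hxy : T.Adj x y) {f : V → ℝ} (hf : Summable f) :
    ∑' z, (Br T x y).indicator f z + ∑' z, (Br T y x).indicator f z = ∑' z, f z := by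
  rw [← (hf.indicator _).tsum_add (hf.indicator _)]
  refine tsum_congr fun z => ?_
  by_cases hz : z ∈ Br T x y
  · rw [Set.indicator_of_mem hz, Set.indicator_of_notMem, add_zero]
    rw [mem_Br_swap_iff hT hxy]; exact fun h => h hz
  · rw [Set.indicator_of_notMem hz, Set.indicator_of_mem, zero_add]
    rw [mem_Br_swap_iff hT hxy]; exact hz

theorem inner_part (hT : T.IsTree) (hK : IsKer T W q K) {x y : V} (hxy : T.Adj x y)
    (hx : 0 < K x x) :
    ∑' z, (Br T x y).indicator (fun z => K x z ^ 2) z = K x x * (1 - frac T K x y) := by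
  have h1 := split_sum hT hxy (hK.1 x).1
  rw [sum_sq hK] at h1
  rw [frac]
  field_simp
  linarith

/-- (b) On an edge inside the support the two fractions add up to one. -/
theorem frac_edge (hT : T.IsTree) (h : Wt T W M D) (hK : IsKer T W q K) {x y : V}
    (hxy : T.Adj x y) (hx : 0 < K x x) (hy : 0 < K y y) :
    frac T K x y + frac T K y x = 1 := by
  have h1 : ∀ z, K y z * K x x = K x z * K x y := by
    intro z
    have h2 := wronskian hT h hxy (hK.1 x) (hK.1 z)
    rw [hK.symm y z, hK.symm x z]
    linarith
  have h3 : K y y * K x x = K x y * K x y := h1 y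
  have h4 : ∀ z, (Br T x y).indicator (fun z => K y z ^ 2) z
      = (Br T x y).indicator (fun z => K x z ^ 2) z * (K y y / K x x) := by
    intro z
    by_cases hz : z ∈ Br T x y
    · rw [Set.indicator_of_mem hz, Set.indicator_of_mem hz]
      have h5 := h1 z
      field_simp
      have h6 : (K y z * K x x) ^ 2 = (K x z * K x y) ^ 2 := by rw [h5]
      have h7 : K x x * (K y z ^ 2 * K x x) = K x x * (K x z ^ 2 * K y y) := by
        linear_combination h6 - K x z ^ 2 * h3
      exact mul_left_cancel₀ hx.ne' h7
    · rw [Set.indicator_of_notMem hz, Set.indicator_of_notMem hz, zero_mul]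
  have h5 := inner_part hT hK hxy hx
  have h6 : frac T K y x = (∑' z, (Br T x y).indicator (fun z => K x z ^ 2) z) / K x x := by
    rw [frac, tsum_congr h4, tsum_mul_right]
    field_simp
  rw [h6, h5]
  field_simp
  ring

/-- (c) At a vertex outside the support, the fractions of its neighbours in the support beyond
it add up to one. -/
theorem frac_boundary (hT : T.IsTree) (h : Wt T W M D) (hK : IsKer T W q K) {y x : V}
    (hxy : T.Adj y x) (hy : K y y = 0) (hx : 0 < K x x) :
    ∑ x' ∈ T.neighborFinset y, (if 0 < K x' x' then frac T K x' y else 0) = 1 := by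
  classical
  have hKy : ∀ z, K z y = 0 := fun z => by rw [hK.symm z y]; exact hK.eq_zero hy z
  set f : V → ℝ := (Br T x y).indicator (K x) with hf
  have hfs : Summable fun z => f z ^ 2 := summable_ind_sq (hK.1 x).1 _
  -- inner products with the kernels at the neighbours
  have h1 : ∀ x' ∈ T.neighborFinset y, W y x' * ∑' z, K x' z * f z
      = (if x' = x then W y x * K x x else 0)
        - W y x * K x x * (if 0 < K x' x' then frac T K x' y else 0) := by
    intro x' hx'
    rw [mem_neighborFinset] at hx'
    by_cases he : x' = x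
    · subst he
      rw [if_pos rfl, if_pos hx]
      have h2 : ∀ z, K x' z * f z = (Br T x' y).indicator (fun z => K x' z ^ 2) z := by
        intro z
        rw [hf]
        by_cases hz : z ∈ Br T x' y
        · rw [Set.indicator_of_mem hz, Set.indicator_of_mem hz]; ring
        · rw [Set.indicator_of_notMem hz, Set.indicator_of_notMem hz]; ring
      rw [tsum_congr h2, inner_part hT hK hx'.symm hx]
      ring
    · rw [if_neg he]
      by_cases hp : 0 < K x' x'
      · rw [if_pos hp]
        have hg := isEig_glue hT hxy.symm hx'.symm (hK.1 x) (hK.1 x') (hKy x) (hKy x')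
        have h2 := hK.2 x' _ hg
        have hnot : x' ∉ Br T x y := by
          intro hin
          have h3 : x' ∈ Br T x' y := mem_Br_self _ _
          exact he (branch_unique hT hx' hxy h3 hin)
        rw [Set.indicator_of_notMem hnot, Set.indicator_of_mem (mem_Br_self _ _)] at h2
        have h3 : ∀ z, K x' z * (W y x' * K x' x' * (Br T x y).indicator (K x) z
            - W y x * K x x * (Br T x' y).indicator (K x') z)
            = (W y x' * K x' x') * (K x' z * f z)
              - (W y x * K x x) * (Br T x' y).indicator (fun z => K x' z ^ 2) z := by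
          intro z
          rw [hf]
          by_cases hz : z ∈ Br T x' y
          · rw [Set.indicator_of_mem hz, Set.indicator_of_mem hz]; ring
          · rw [Set.indicator_of_notMem hz, Set.indicator_of_notMem hz]; ring
        rw [tsum_congr h3, Summable.tsum_sub ((summable_mul_sq (hK.1 x').1 hfs).mul_left _)
          (((hK.1 x').1.indicator _).mul_left _), tsum_mul_left, tsum_mul_left,
          inner_part hT hK hx'.symm hp] at h2
        have h4 : K x' x' * (W y x' * ∑' z, K x' z * f z)
            = K x' x' * (0 - W y x * K x x * frac T K x' y) := by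
          linear_combination h2
        exact mul_left_cancel₀ hp.ne' h4
      · have hp0 : K x' x' = 0 := le_antisymm (not_lt.1 hp) (hK.self_nonneg x')
        rw [if_neg hp]
        simp [hK.eq_zero hp0]
  -- the weighted sum of the kernels vanishes
  have h5 : ∀ z, ∑ x' ∈ T.neighborFinset y, W y x' * K x' z = 0 := by
    intro z
    have h6 := (hK.1 z).2 y
    rw [Lop, hKy z, mul_zero, sub_zero] at h6
    rw [← h6]
    exact Finset.sum_congr rfl fun w _ => by rw [hK.symm w z]
  have h6 : ∑ x' ∈ T.neighborFinset y, W y x' * ∑' z, K x' z * f z = 0 := by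
    have h7 : ∀ x' ∈ T.neighborFinset y, W y x' * ∑' z, K x' z * f z
        = ∑' z, W y x' * (K x' z * f z) := fun x' _ => tsum_mul_left.symm
    rw [Finset.sum_congr rfl h7, ← Summable.tsum_finsetSum
      (fun x' _ => (summable_mul_sq (hK.1 x').1 hfs).mul_left _)]
    have h8 : ∀ z, ∑ x' ∈ T.neighborFinset y, W y x' * (K x' z * f z) = 0 := by
      intro z
      have h9 : ∀ x' ∈ T.neighborFinset y, W y x' * (K x' z * f z) = W y x' * K x' z * f z :=
        fun x' _ => by ring
      rw [Finset.sum_congr rfl h9, ← Finset.sum_mul, h5 z, zero_mul]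
    rw [tsum_congr h8, tsum_zero]
  rw [Finset.sum_congr rfl h1, Finset.sum_sub_distrib, Finset.sum_ite_eq',
    if_pos ((mem_neighborFinset _ _ _).2 hxy), ← Finset.mul_sum] at h6
  have hW := h.pos y x hxy
  have h10 : (W y x * K x x) * (∑ x' ∈ T.neighborFinset y,
      (if 0 < K x' x' then frac T K x' y else 0)) = (W y x * K x x) * 1 := by
    linear_combination -h6
  exact mul_left_cancel₀ (mul_pos hW hx).ne' h10

end Pool.Agent.Q11.RG
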