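import Pool.Agent.Q11.RG.Deck
import Pool.Agent.Q11.RG.Index
import Pool.Agent.Q11.RG.Count

/-!
# Eigenfunctions of periodic Jacobi operators over `K_{r,g}`, `r > g ≥ 2`, vanish over green vertices
-/

namespace Pool.Agent.Q11.RG

open SimpleGraph

section invariance

variable {V : Type*} {T : SimpleGraph V}

theorem Br_map (τ : V ≃ V) (hτ : ∀ y z, T.Adj (τ y) (τ z) ↔ T.Adj y z) {x y z : V}
    (hz : z ∈ Br T x y) : τ z ∈ Br T (τ x) (τ y) := by
  let f : (T.deleteEdges {s(x, y)}) →g (T.deleteEdges {s(τ x, τ y)}) :=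
    { toFun := τ
      map_rel' := by
        intro a b hab
        rw [deleteEdges_adj] at hab ⊢
        refine ⟨(hτ a b).2 hab.1, ?_⟩
        intro he
        apply hab.2
        rw [Set.mem_singleton_iff, Sym2.eq_iff] at he ⊢
        rcases he with ⟨h1, h2⟩ | ⟨h1, h2⟩
        · exact Or.inl ⟨τ.injective h1, τ.injective h2⟩
        · exact Or.inr ⟨τ.injective h1, τ.injective h2⟩ }
  exact Reachable.map f hz

theorem Br_map_iff (τ : V ≃ V) (hτ : ∀ y z, T.Adj (τ y) (τ z) ↔ T.Adj y z) {x y z : V} :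
    τ z ∈ Br T (τ x) (τ y) ↔ z ∈ Br T x y := by
  refine ⟨fun h => ?_, Br_map τ hτ⟩
  have hτ' : ∀ y z, T.Adj (τ.symm y) (τ.symm z) ↔ T.Adj y z := by
    intro y z
    rw [← hτ (τ.symm y) (τ.symm z), τ.apply_symm_apply, τ.apply_symm_apply]
  have h1 := Br_map τ.symm hτ' h
  rwa [τ.symm_apply_apply, τ.symm_apply_apply, τ.symm_apply_apply] at h1

variable [T.LocallyFinite] {W : V → V → ℝ} {q : V → ℝ} {K : V → V → ℝ}

theorem isEig_comp (τ : V ≃ V) (hτ : ∀ y z, T.Adj (τ y) (τ z) ↔ T.Adj y z)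
    (hW : ∀ y z, W (τ y) (τ z) = W y z) (hq : ∀ y, q (τ y) = q y) {u : V → ℝ}
    (hu : IsEig T W q u) : IsEig T W q (fun z => u (τ z)) := by
  refine ⟨(τ.summable_iff (f := fun z => u z ^ 2)).2 hu.1, ?_⟩
  intro z
  have h1 := hu.2 (τ z)
  rw [Lop] at h1 ⊢
  rw [← h1, hq z]
  congr 1
  refine Finset.sum_equiv τ ?_ ?_
  · intro w
    rw [mem_neighborFinset, mem_neighborFinset, hτ]
  · intro w _
    rw [hW]

theorem ker_map (hK : IsKer T W q K) (τ : V ≃ V) (hτ : ∀ y z, T.Adj (τ y) (τ z) ↔ T.Adj y z)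
    (hW : ∀ y z, W (τ y) (τ z) = W y z) (hq : ∀ y, q (τ y) = q y) (x z : V) :
    K (τ x) (τ z) = K x z := by
  have hτ' : ∀ y z, T.Adj (τ.symm y) (τ.symm z) ↔ T.Adj y z := by
    intro y z
    rw [← hτ (τ.symm y) (τ.symm z), τ.apply_symm_apply, τ.apply_symm_apply]
  have hW' : ∀ y z, W (τ.symm y) (τ.symm z) = W y z := by
    intro y z
    rw [← hW (τ.symm y) (τ.symm z), τ.apply_symm_apply, τ.apply_symm_apply]
  have hq' : ∀ y, q (τ.symm y) = q y := by
    intro y
    rw [← hq (τ.symm y), τ.apply_symm_apply]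
  have h1 : ∑' t, K z t * K (τ x) (τ t) = K (τ x) (τ z) :=
    hK.2 z _ (isEig_comp τ hτ hW hq (hK.1 (τ x)))
  have h2 : ∑' s, K (τ x) s * K z (τ.symm s) = K z (τ.symm (τ x)) :=
    hK.2 (τ x) _ (isEig_comp τ.symm hτ' hW' hq' (hK.1 z))
  have h3 : ∑' s, K (τ x) s * K z (τ.symm s) = ∑' t, K z t * K (τ x) (τ t) := by
    rw [← τ.tsum_eq (fun s => K (τ x) s * K z (τ.symm s))]
    refine tsum_congr fun t => ?_
    rw [τ.symm_apply_apply, mul_comm]
  rw [← h1, ← h3, h2, τ.symm_apply_apply, hK.symm z x]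

theorem frac_map (hK : IsKer T W q K) (τ : V ≃ V) (hτ : ∀ y z, T.Adj (τ y) (τ z) ↔ T.Adj y z)
    (hW : ∀ y z, W (τ y) (τ z) = W y z) (hq : ∀ y, q (τ y) = q y) (x y : V) :
    frac T K (τ x) (τ y) = frac T K x y := by
  rw [frac, frac, ker_map hK τ hτ hW hq x x]
  congr 1
  rw [← τ.tsum_eq (fun z => (Br T (τ y) (τ x)).indicator (fun z => K (τ x) z ^ 2) z)]
  refine tsum_congr fun z => ?_
  by_cases hz : z ∈ Br T y x
  · rw [Set.indicator_of_mem hz, Set.indicator_of_mem ((Br_map_iff τ hτ).2 hz),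
      ker_map hK τ hτ hW hq]
  · rw [Set.indicator_of_notMem hz, Set.indicator_of_notMem fun h => hz ((Br_map_iff τ hτ).1 h)]

end invariance

section main

variable {V : Type*} {T : SimpleGraph V} [T.LocallyFinite] {r g : ℕ}

/-- The weights of a Jacobi matrix on `K_{r,g}`, as a symmetric function. -/
def wt (a : Fin r → Fin g → ℝ) : Fin r ⊕ Fin g → Fin r ⊕ Fin g → ℝ
  | .inl i, .inr j => a i j
  | .inr j, .inl i => a i j
  | .inl _, .inl _ => 0
  | .inr _, .inr _ => 0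

theorem wt_symm (a : Fin r → Fin g → ℝ) (v w : Fin r ⊕ Fin g) : wt a v w = wt a w v := by
  rcases v with i | j <;> rcases w with i' | j' <;> rfl

variable {Ξ : V → Fin r ⊕ Fin g}

/-- The complete bipartite graph with `r` red and `g` green vertices. -/
abbrev KK (r g : ℕ) : SimpleGraph (Fin r ⊕ Fin g) := completeBipartiteGraph (Fin r) (Fin g)

theorem adj_lr (i : Fin r) (j : Fin g) : (KK r g).Adj (.inl i) (.inr j) := by
  simp [KK, completeBipartiteGraph]

theorem adj_rl (i : Fin r) (j : Fin g) : (KK r g).Adj (.inr j) (.inl i) := by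
  simp [KK, completeBipartiteGraph]

omit [T.LocallyFinite] in
theorem exists_over (hr : 0 < r) (hg : 0 < g) (hT : T.IsTree) (hc : IsCover T (KK r g) Ξ)
    (c : Fin r ⊕ Fin g) : ∃ x, Ξ x = c := by
  obtain ⟨x0⟩ := hT.connected.nonempty
  have hL : ∀ x i, Ξ x = .inl i → ∀ j, ∃ y, Ξ y = .inr j := by
    intro x i hx j
    obtain ⟨y, _, hy⟩ := exists_nbr hc (x := x) (c := .inr j) (by rw [hx]; exact adj_lr i j)
    exact ⟨y, hy⟩
  have hR : ∀ x j, Ξ x = .inr j → ∀ i, ∃ y, Ξ y = .inl i := by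
    intro x j hx i
    obtain ⟨y, _, hy⟩ := exists_nbr hc (x := x) (c := .inl i) (by rw [hx]; exact adj_rl i j)
    exact ⟨y, hy⟩
  have hl : ∃ x i, Ξ x = .inl i := by
    rcases h0 : Ξ x0 with i | j
    · exact ⟨x0, i, h0⟩
    · obtain ⟨y, hy⟩ := hR x0 j h0 ⟨0, hr⟩
      exact ⟨y, _, hy⟩
  obtain ⟨x1, i1, h1⟩ := hl
  obtain ⟨x2, h2⟩ := hL x1 i1 h1 ⟨0, hg⟩
  rcases c with i | j
  · exact hR x2 _ h2 i
  · exact hL x1 i1 h1 j

theorem sum_nbr_l (hc : IsCover T (KK r g) Ξ) {x : V} {i : Fin r} (hx : Ξ x = .inl i)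
    (F : V → ℝ) : ∑ y ∈ T.neighborFinset x, F y = ∑ j, F (nbr T Ξ x (.inr j)) := by
  classical
  have hj : ∀ j : Fin g, T.Adj x (nbr T Ξ x (.inr j)) ∧ Ξ (nbr T Ξ x (.inr j)) = .inr j :=
    fun j => nbr_spec hc (by rw [hx]; exact adj_lr i j)
  have h1 : T.neighborFinset x = Finset.univ.image fun j : Fin g => nbr T Ξ x (.inr j) := by
    ext y
    rw [mem_neighborFinset, Finset.mem_image]
    constructor
    · intro hy
      have h2 := adj_map hc hy
      rcases h3 : Ξ y with i' | j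
      · rw [hx, h3] at h2
        simp [KK, completeBipartiteGraph] at h2
      · exact ⟨j, Finset.mem_univ _, by rw [← h3]; exact nbr_eq hc hy⟩
    · rintro ⟨j, _, rfl⟩
      exact (hj j).1
  rw [h1, Finset.sum_image]
  intro j _ j' _ he
  simp only at he
  have h2 := (hj j).2
  rw [he, (hj j').2] at h2
  exact (Sum.inr.inj h2).symm

theorem sum_nbr_r (hc : IsCover T (KK r g) Ξ) {x : V} {j : Fin g} (hx : Ξ x = .inr j)
    (F : V → ℝ) : ∑ y ∈ T.neighborFinset x, F y = ∑ i, F (nbr T Ξ x (.inl i)) := by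
  classical
  have hi : ∀ i : Fin r, T.Adj x (nbr T Ξ x (.inl i)) ∧ Ξ (nbr T Ξ x (.inl i)) = .inl i :=
    fun i => nbr_spec hc (by rw [hx]; exact adj_rl i j)
  have h1 : T.neighborFinset x = Finset.univ.image fun i : Fin r => nbr T Ξ x (.inl i) := by
    ext y
    rw [mem_neighborFinset, Finset.mem_image]
    constructor
    · intro hy
      have h2 := adj_map hc hy
      rcases h3 : Ξ y with i | j'
      · exact ⟨i, Finset.mem_univ _, by rw [← h3]; exact nbr_eq hc hy⟩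
      · rw [hx, h3] at h2
        simp [KK, completeBipartiteGraph] at h2
    · rintro ⟨i, _, rfl⟩
      exact (hi i).1
  rw [h1, Finset.sum_image]
  intro i _ i' _ he
  simp only at he
  have h2 := (hi i).2
  rw [he, (hi i').2] at h2
  exact (Sum.inl.inj h2).symm

theorem degree_le (hc : IsCover T (KK r g) Ξ) (x : V) : T.degree x ≤ r + g := by
  classical
  have h1 : ((T.neighborFinset x).card : ℝ) ≤ ((r + g : ℕ) : ℝ) := by
    have h2 : ((T.neighborFinset x).card : ℝ) = ∑ y ∈ T.neighborFinset x, (1 : ℝ) := by simp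
    rw [h2]
    rcases h3 : Ξ x with i | j
    · rw [sum_nbr_l hc h3 fun _ => (1 : ℝ)]
      simp
    · rw [sum_nbr_r hc h3 fun _ => (1 : ℝ)]
      simp
  rw [← card_neighborFinset_eq_degree]
  exact_mod_cast h1

theorem wt_bdd (a : Fin r → Fin g → ℝ) (ha : ∀ i j, 0 < a i j) (v w : Fin r ⊕ Fin g) :
    |wt a v w| ≤ ∑ i, ∑ j, a i j := by
  have h0 : 0 ≤ ∑ i, ∑ j, a i j :=
    Finset.sum_nonneg fun i _ => Finset.sum_nonneg fun j _ => (ha i j).le
  have h1 : ∀ i j, a i j ≤ ∑ i, ∑ j, a i j := by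
    intro i j
    calc a i j ≤ ∑ j, a i j :=
          Finset.single_le_sum (f := fun j => a i j) (fun j _ => (ha i j).le) (Finset.mem_univ j)
      _ ≤ _ := Finset.single_le_sum (f := fun i => ∑ j, a i j)
          (fun i _ => Finset.sum_nonneg fun j _ => (ha i j).le) (Finset.mem_univ i)
  rcases v with i | j <;> rcases w with i' | j'
  · simpa [wt] using h0
  · rw [wt, abs_of_pos (ha _ _)]; exact h1 _ _
  · rw [wt, abs_of_pos (ha _ _)]; exact h1 _ _
  · simpa [wt] using h0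

/-- The real case. -/
theorem real_case (hg : 2 ≤ g) (hrg : g < r) (hT : T.IsTree) (hc : IsCover T (KK r g) Ξ)
    (a : Fin r → Fin g → ℝ) (ha : ∀ i j, 0 < a i j) (q0 : Fin r ⊕ Fin g → ℝ)
    {u : V → ℝ} (hu : IsEig T (fun x y => wt a (Ξ x) (Ξ y)) (fun x => q0 (Ξ x)) u)
    {x : V} {j : Fin g} (hx : Ξ x = .inr j) : u x = 0 := by
  classical
  set W : V → V → ℝ := fun x y => wt a (Ξ x) (Ξ y) with hWdef
  set q : V → ℝ := fun x => q0 (Ξ x) with hqdef
  have hW : Wt T W (∑ i, ∑ j, a i j) (r + g) := by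
    refine ⟨fun x y => wt_symm a _ _, ?_, fun x y => wt_bdd a ha _ _, degree_le hc⟩
    intro x y hxy
    have h1 := adj_map hc hxy
    show 0 < wt a (Ξ x) (Ξ y)
    rcases h2 : Ξ x with i | j <;> rcases h3 : Ξ y with i' | j'
    · rw [h2, h3] at h1; simp [KK, completeBipartiteGraph] at h1
    · exact ha _ _
    · exact ha _ _
    · rw [h2, h3] at h1; simp [KK, completeBipartiteGraph] at h1
  obtain ⟨K, hK⟩ : ∃ K, IsKer T W q K := exists_kernel T W q
  have hover := exists_over (by omega) (by omega) hT hc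
  choose rep hrep using hover
  -- invariance
  have inv : ∀ x x' : V, Ξ x' = Ξ x → K x' x' = K x x ∧
      ∀ y y', T.Adj x y → T.Adj x' y' → Ξ y' = Ξ y →
        frac T K x' y' = frac T K x y ∧ frac T K y' x' = frac T K y x := by
    intro x x' he
    obtain ⟨τ, h1, h2, h3⟩ := exists_deck hc hT he
    have hWτ : ∀ y z, W (τ y) (τ z) = W y z := fun y z => by
      show wt a (Ξ (τ y)) (Ξ (τ z)) = wt a (Ξ y) (Ξ z)
      rw [h2, h2]
    have hqτ : ∀ y, q (τ y) = q y := fun y => by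
      show q0 (Ξ (τ y)) = q0 (Ξ y)
      rw [h2]
    refine ⟨by rw [← h1]; exact ker_map hK τ h3 hWτ hqτ x x, ?_⟩
    intro y y' hy hy' hyy
    have h4 : τ y = y' := by
      refine nbr_unique hc ?_ hy' (by rw [h2, hyy])
      rw [← h1]; exact (h3 x y).2 hy
    rw [← h4, ← h1]
    exact ⟨frac_map hK τ h3 hWτ hqτ x y, frac_map hK τ h3 hWτ hqτ y x⟩
  let P1 : Fin r → ℝ := fun i => K (rep (.inl i)) (rep (.inl i))
  let P2 : Fin g → ℝ := fun j => K (rep (.inr j)) (rep (.inr j))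
  let A : Fin r → Fin g → ℝ := fun i j =>
    frac T K (rep (.inl i)) (nbr T Ξ (rep (.inl i)) (.inr j))
  let B : Fin r → Fin g → ℝ := fun i j =>
    frac T K (rep (.inr j)) (nbr T Ξ (rep (.inr j)) (.inl i))
  have hnl : ∀ (x : V) (i : Fin r), Ξ x = .inl i → ∀ j : Fin g,
      T.Adj x (nbr T Ξ x (.inr j)) ∧ Ξ (nbr T Ξ x (.inr j)) = .inr j := fun x i hx j =>
    nbr_spec hc (by rw [hx]; exact adj_lr i j)
  have hnr : ∀ (x : V) (j : Fin g), Ξ x = .inr j → ∀ i : Fin r,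
      T.Adj x (nbr T Ξ x (.inl i)) ∧ Ξ (nbr T Ξ x (.inl i)) = .inl i := fun x j hx i =>
    nbr_spec hc (by rw [hx]; exact adj_rl i j)
  have hP1 : ∀ (x : V) (i : Fin r), Ξ x = .inl i → K x x = P1 i := fun x i hx =>
    (inv (rep (.inl i)) x (by rw [hx, hrep])).1
  have hP2 : ∀ (x : V) (j : Fin g), Ξ x = .inr j → K x x = P2 j := fun x j hx =>
    (inv (rep (.inr j)) x (by rw [hx, hrep])).1
  have hA : ∀ (x y : V) (i : Fin r) (j : Fin g), T.Adj x y → Ξ x = .inl i → Ξ y = .inr j →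
      frac T K x y = A i j := by
    intro x y i j hxy hx hy
    have h1 := hnl (rep (.inl i)) i (hrep _) j
    exact ((inv (rep (.inl i)) x (by rw [hx, hrep])).2 _ y h1.1 hxy (by rw [hy, h1.2])).1
  have hB : ∀ (x y : V) (i : Fin r) (j : Fin g), T.Adj y x → Ξ x = .inl i → Ξ y = .inr j →
      frac T K y x = B i j := by
    intro x y i j hxy hx hy
    have h1 := hnr (rep (.inr j)) j (hrep _) i
    exact ((inv (rep (.inr j)) y (by rw [hy, hrep])).2 _ x h1.1 hxy (by rw [hx, h1.2])).1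
  have key : ∀ j, P2 j = 0 := by
    refine count hg hrg P1 P2 A B (fun i => hK.self_nonneg _) (fun j => hK.self_nonneg _)
      ?_ ?_ ?_ ?_ ?_
    · intro i hi
      have h1 := frac_sum hT hK (x := rep (.inl i)) hi
      rw [sum_nbr_l hc (hrep (.inl i))] at h1
      exact h1
    · intro j hj
      have h1 := frac_sum hT hK (x := rep (.inr j)) hj
      rw [sum_nbr_r hc (hrep (.inr j))] at h1
      exact h1
    · intro i j hi hj
      have h1 := hnl (rep (.inl i)) i (hrep _) j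
      have h2 : 0 < K (nbr T Ξ (rep (.inl i)) (.inr j)) (nbr T Ξ (rep (.inl i)) (.inr j)) := by
        rw [hP2 _ j h1.2]; exact hj
      have h3 := frac_edge hT hW hK h1.1 hi h2
      rw [hB (rep (.inl i)) _ i j h1.1.symm (hrep _) h1.2] at h3
      exact h3
    · rintro j hj ⟨i, hi⟩
      have h1 := hnr (rep (.inr j)) j (hrep _)
      have h2 : 0 < K (nbr T Ξ (rep (.inr j)) (.inl i)) (nbr T Ξ (rep (.inr j)) (.inl i)) := by
        rw [hP1 _ i (h1 i).2]; exact hi
      have h3 := frac_boundary hT hW hK (h1 i).1 hj h2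
      rw [sum_nbr_r hc (hrep (.inr j))] at h3
      rw [← h3]
      refine Finset.sum_congr rfl fun i' _ => ?_
      rw [hP1 _ i' (h1 i').2, hA _ _ i' j (h1 i').1.symm (h1 i').2 (hrep _)]
    · rintro i hi ⟨j, hj⟩
      have h1 := hnl (rep (.inl i)) i (hrep _)
      have h2 : 0 < K (nbr T Ξ (rep (.inl i)) (.inr j)) (nbr T Ξ (rep (.inl i)) (.inr j)) := by
        rw [hP2 _ j (h1 j).2]; exact hj
      have h3 := frac_boundary hT hW hK (h1 j).1 hi h2
      rw [sum_nbr_l hc (hrep (.inl i))] at h3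
      rw [← h3]
      refine Finset.sum_congr rfl fun j' _ => ?_
      rw [hP2 _ j' (h1 j').2, hB _ _ i j' (h1 j').1.symm (hrep _) (h1 j').2]
  exact hK.vanish (by rw [hP2 x j hx]; exact key j) hu

end main

end Pool.Agent.Q11.RG
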