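import Mathlib

/-!
# Branches of a tree at an edge
-/

namespace Pool.Agent.Q11.RG

open SimpleGraph

variable {V : Type*} {T : SimpleGraph V}

/-- The component of `x` after deleting the edge `xy`. -/
def Br (T : SimpleGraph V) (x y : V) : Set V :=
  {z | (T.deleteEdges {s(x, y)}).Reachable z x}

theorem mem_Br_self (x y : V) : x ∈ Br T x y := Reachable.refl _

theorem not_mem_Br (hT : T.IsAcyclic) {x y : V} (h : T.Adj x y) : y ∉ Br T x y := by
  intro hy
  have hb := (isAcyclic_iff_forall_adj_isBridge.1 hT) h
  rw [isBridge_iff] at hb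
  exact hb (Reachable.symm hy)

theorem mem_Br_iff_of_adj {x y z w : V} (h : T.Adj z w) (hne : s(z, w) ≠ s(x, y)) :
    z ∈ Br T x y ↔ w ∈ Br T x y := by
  have hzw : (T.deleteEdges {s(x, y)}).Adj z w := by
    rw [deleteEdges_adj]
    exact ⟨h, by simpa using hne⟩
  constructor
  · intro hz
    exact hzw.symm.reachable.trans hz
  · intro hw
    exact hzw.reachable.trans hw

theorem Br_cover (hT : T.Connected) (x y z : V) : z ∈ Br T x y ∨ z ∈ Br T y x := by
  obtain ⟨p⟩ := hT.preconnected x z
  have key : ∀ {a b : V} (p : T.Walk a b), (a ∈ Br T x y ∨ a ∈ Br T y x) →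
      (b ∈ Br T x y ∨ b ∈ Br T y x) := by
    intro a b p
    induction p with
    | nil => exact id
    | @cons u v w h p ih =>
      intro hu
      apply ih
      by_cases he : s(u, v) = s(x, y)
      · rw [Sym2.eq_iff] at he
        rcases he with ⟨_, rfl⟩ | ⟨_, rfl⟩
        · right; exact mem_Br_self _ _
        · left; exact mem_Br_self _ _
      · have he' : s(u, v) ≠ s(y, x) := by rw [Sym2.eq_swap (a := y)]; exact he
        rcases hu with hu | hu
        · left; exact (mem_Br_iff_of_adj h he).1 hu
        · right; exact (mem_Br_iff_of_adj h he').1 hu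
  exact key p (Or.inl (mem_Br_self _ _))

theorem Br_disjoint (hT : T.IsAcyclic) {x y : V} (h : T.Adj x y) {z : V}
    (h1 : z ∈ Br T x y) (h2 : z ∈ Br T y x) : False := by
  apply not_mem_Br hT h
  have h2' : (T.deleteEdges {s(x, y)}).Reachable z y := by
    have : ({s(x, y)} : Set (Sym2 V)) = {s(y, x)} := by rw [Sym2.eq_swap]
    rw [this]
    exact h2
  exact h2'.symm.trans h1

theorem mem_Br_swap_iff (hT : T.IsTree) {x y : V} (h : T.Adj x y) (z : V) :
    z ∈ Br T y x ↔ z ∉ Br T x y := by
  constructor
  · intro h2 h1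
    exact Br_disjoint hT.isAcyclic h h1 h2
  · intro h1
    exact (Br_cover hT.connected x y z).resolve_left h1

/-- Every vertex different from `x` lies beyond exactly one neighbour of `x`. -/
theorem exists_branch (hT : T.IsTree) {x z : V} (hz : z ≠ x) :
    ∃ y, T.Adj x y ∧ z ∈ Br T y x := by
  obtain ⟨p, hp⟩ := hT.connected.preconnected.exists_isPath x z
  cases p with
  | nil => exact absurd rfl hz
  | @cons _ y _ h p =>
    refine ⟨y, h, ?_⟩
    rw [Walk.cons_isPath_iff] at hp
    have key : ∀ {a b : V} (p : T.Walk a b), x ∉ p.support → b ∈ Br T y x → a ∈ Br T y x := by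
      intro a b p
      induction p with
      | nil => intro _ h; exact h
      | @cons u v w h' p ih =>
        intro hx hb
        have hx' : x ≠ u ∧ x ∉ p.support := by simpa [Walk.support_cons] using hx
        have hv := ih hx'.2 hb
        have hxv : x ≠ v := fun h0 => hx'.2 (h0 ▸ p.start_mem_support)
        refine (mem_Br_iff_of_adj h' ?_).2 hv
        intro he
        rw [Sym2.eq_iff] at he
        rcases he with ⟨_, h0⟩ | ⟨h0, _⟩
        · exact hxv h0.symm
        · exact hx'.1 h0.symm
    have h2 : x ∉ p.reverse.support := by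
      rw [Walk.support_reverse, List.mem_reverse]; exact hp.2
    exact key p.reverse h2 (mem_Br_self _ _)

theorem branch_unique (hT : T.IsTree) {x y y' z : V} (h : T.Adj x y) (h' : T.Adj x y')
    (hz : z ∈ Br T y x) (hz' : z ∈ Br T y' x) : y = y' := by
  by_contra hne
  -- `y'` is on the side of `x` with respect to `xy`
  have h1 : x ∈ Br T x y := mem_Br_self _ _
  have h2 : y' ∈ Br T x y := by
    refine (mem_Br_iff_of_adj h' ?_).1 h1
    intro he
    rw [Sym2.eq_iff] at he
    rcases he with ⟨_, h0⟩ | ⟨h0, _⟩
    · exact hne h0.symm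
    · exact h.ne h0
  -- the component of `y'` after removing `x y'` lies inside `Br x y`
  have key : ∀ {a b : V} (p : (T.deleteEdges {s(y', x)}).Walk a b), b = y' → a ∈ Br T x y := by
    intro a b p
    induction p with
    | nil => rintro rfl; exact h2
    | @cons u v w hadj p ih =>
      intro hb
      have hv := ih hb
      have hv' : v ∈ Br T y' x := by
        subst hb
        exact ⟨p⟩
      have hu' : u ∈ Br T y' x := by
        subst hb
        exact ⟨Walk.cons hadj p⟩
      have hvx : v ≠ x := by
        rintro rfl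
        exact not_mem_Br hT.isAcyclic h'.symm hv'
      have hux : u ≠ x := by
        rintro rfl
        exact not_mem_Br hT.isAcyclic h'.symm hu'
      have hadj' : T.Adj u v := (deleteEdges_adj.1 hadj).1
      refine (mem_Br_iff_of_adj hadj' ?_).2 hv
      intro he
      rw [Sym2.eq_iff] at he
      rcases he with ⟨h0, _⟩ | ⟨_, h0⟩
      · exact hux h0
      · exact hvx h0
  obtain ⟨p⟩ := hz'
  exact Br_disjoint hT.isAcyclic h (key p rfl) hz

end Pool.Agent.Q11.RG
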